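import Mathlib

/-!
# SR, module F, part 1: uniqueness and the functional equation of degree zero

For a Dirichlet series `Θ(s) = ∑ d_j ν_j^{-s}` with integer frequencies `ν_j ≥ 2` which converges
absolutely for `σ > σ₁`, `σ₁ < 1/2`, and satisfies `exp Θ(s) = κ Q^{-s} exp Θ(1-s)` on the strip,
all the coefficients `∑_{ν_j = n} d_j` vanish.
-/

set_option autoImplicit false

namespace Pool.Agent.H13.SR.F

open Filter Topology Complex

/-- The Dirichlet series -/
noncomputable def Th {J : Type} (d : J → ℂ) (ν : J → ℕ) (s : ℂ) : ℂ :=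
  ∑' j, d j * Complex.exp (-s * (Real.log (ν j) : ℝ))

theorem exp_neg_log (n : ℕ) (hn : n ≠ 0) (s : ℂ) :
    Complex.exp (-s * (Real.log n : ℝ)) = ((n : ℂ) ^ s)⁻¹ := by
  rw [Complex.cpow_def_of_ne_zero (by exact_mod_cast hn), ← Complex.exp_neg,
    ← Complex.natCast_log]
  congr 1
  ring

theorem norm_term {J : Type} (d : J → ℂ) (ν : J → ℕ) (s : ℂ) (j : J) :
    ‖d j * Complex.exp (-s * (Real.log (ν j) : ℝ))‖ =
      ‖d j‖ * Real.exp (-s.re * Real.log (ν j)) := by
  rw [norm_mul, Complex.norm_exp]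
  congr 2
  rw [Complex.mul_re, Complex.ofReal_re, Complex.ofReal_im, Complex.neg_re]
  ring

theorem log_nn {J : Type} (ν : J → ℕ) (j : J) : 0 ≤ Real.log (ν j) :=
  Real.log_natCast_nonneg _

theorem norm_le_of_re {J : Type} (d : J → ℂ) (ν : J → ℕ) (σ : ℝ) (s : ℂ) (hs : σ ≤ s.re) (j : J) :
    ‖d j * Complex.exp (-s * (Real.log (ν j) : ℝ))‖ ≤
      ‖d j‖ * Real.exp (-σ * Real.log (ν j)) := by
  rw [norm_term]
  apply mul_le_mul_of_nonneg_left _ (norm_nonneg _)
  apply Real.exp_le_exp.2
  have := log_nn ν j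
  nlinarith

theorem summable_term {J : Type} (d : J → ℂ) (ν : J → ℕ) (σ : ℝ)
    (hd : Summable fun j => ‖d j‖ * Real.exp (-σ * Real.log (ν j))) (s : ℂ) (hs : σ ≤ s.re) :
    Summable fun j => d j * Complex.exp (-s * (Real.log (ν j) : ℝ)) := by
  apply Summable.of_norm
  exact Summable.of_nonneg_of_le (fun j => norm_nonneg _) (norm_le_of_re d ν σ s hs) hd

/-- uniqueness -/
theorem uniq {J : Type} (d : J → ℂ) (ν : J → ℕ) (hν : ∀ j, 1 ≤ ν j) (σ : ℝ)
    (hd : Summable fun j => ‖d j‖ * Real.exp (-σ * Real.log (ν j)))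
    (h : ∀ᶠ x : ℝ in atTop, Th d ν (x : ℂ) = 0) (n : ℕ) (hn : n ≠ 0) :
    ∑' j : {j // ν j = n}, d j = 0 := by
  classical
  set f : ℕ → ℂ := fun n => ∑' j : {j // ν j = n}, d j with hf
  -- the fibre sums
  have key : ∀ s : ℂ, σ ≤ s.re → HasSum (LSeries.term f s) (Th d ν s) := by
    intro s hs
    have h1 := (summable_term d ν σ hd s hs).hasSum
    have h2 : HasSum ((fun j => d j * Complex.exp (-s * (Real.log (ν j) : ℝ))) ∘
        (Equiv.sigmaFiberEquiv ν)) (Th d ν s) := (Equiv.hasSum_iff _).2 h1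
    have h3 := h2.sigma (g := fun m => ∑' j : {x // ν x = m},
      d j * Complex.exp (-s * (Real.log (ν j) : ℝ))) (by
        intro m
        exact (h2.summable.sigma_factor m).hasSum)
    have h4 : LSeries.term f s = fun m => ∑' j : {x // ν x = m},
        d j * Complex.exp (-s * (Real.log (ν j) : ℝ)) := by
      funext m
      rcases eq_or_ne m 0 with rfl | hm
      · rw [LSeries.term_zero]
        have : IsEmpty {x // ν x = 0} := ⟨fun x => by
          have := hν x.1
          have := x.2
          omega⟩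
        exact tsum_empty.symm
      · rw [LSeries.term_of_ne_zero hm, hf]
        simp only
        rw [div_eq_mul_inv, ← tsum_mul_right]
        apply tsum_congr
        intro j
        have : (ν j : ℕ) = m := j.2
        rw [this, exp_neg_log m hm]
    rw [h4]
    exact h3
  have hab : LSeries.abscissaOfAbsConv f ≠ ⊤ := by
    have h1 : LSeriesSummable f (σ : ℂ) := (key (σ : ℂ) (by simp)).summable
    have h2 := h1.abscissaOfAbsConv_le
    intro h3
    rw [h3] at h2
    simp at h2
  have hev : (fun x : ℝ => LSeries f x) =ᶠ[atTop] 0 := by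
    filter_upwards [h, eventually_ge_atTop σ] with x hx hx2
    have := (key (x : ℂ) (by simpa using hx2)).tsum_eq
    show LSeries f x = 0
    rw [LSeries, this, hx]
  exact (LSeries_eventually_eq_zero_iff'.1 hev).resolve_right hab n hn

theorem th_diff {J : Type} (d : J → ℂ) (ν : J → ℕ) (σ₁ : ℝ)
    (hd : ∀ σ, σ₁ < σ → Summable fun j => ‖d j‖ * Real.exp (-σ * Real.log (ν j))) :
    DifferentiableOn ℂ (Th d ν) {s | σ₁ < s.re} := by
  intro s hs
  obtain ⟨σ, h1, h2⟩ := exists_between (show σ₁ < s.re from hs)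
  have ho : IsOpen {s : ℂ | σ < s.re} := isOpen_lt continuous_const Complex.continuous_re
  have : DifferentiableOn ℂ (Th d ν) {s : ℂ | σ < s.re} := by
    apply Complex.differentiableOn_tsum_of_summable_norm (hd σ h1) _ ho
    · intro j w hw
      exact norm_le_of_re d ν σ w (le_of_lt hw) j
    · intro j
      apply Differentiable.differentiableOn
      fun_prop
  exact ((this s h2).differentiableAt (ho.mem_nhds h2)).differentiableWithinAt

/-- The bound on vertical lines -/
theorem th_bound {J : Type} (d : J → ℂ) (ν : J → ℕ) (σ : ℝ)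
    (hd : Summable fun j => ‖d j‖ * Real.exp (-σ * Real.log (ν j))) (s : ℂ) (hs : σ ≤ s.re) :
    ‖Th d ν s‖ ≤ ∑' j, ‖d j‖ * Real.exp (-σ * Real.log (ν j)) := by
  have h1 : Summable fun j => ‖d j * Complex.exp (-s * (Real.log (ν j) : ℝ))‖ :=
    (summable_term d ν σ hd s hs).norm
  refine (norm_tsum_le_tsum_norm h1).trans ?_
  exact h1.tsum_le_tsum (norm_le_of_re d ν σ s hs) hd

theorem th_tendsto {J : Type} (d : J → ℂ) (ν : J → ℕ) (hν : ∀ j, 2 ≤ ν j) (σ : ℝ)
    (hd : Summable fun j => ‖d j‖ * Real.exp (-σ * Real.log (ν j))) :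
    Tendsto (fun x : ℝ => Th d ν (x : ℂ)) atTop (𝓝 0) := by
  have h2 : ∀ x : ℝ, σ ≤ x → ‖Th d ν (x : ℂ)‖ ≤
      (∑' j, ‖d j‖ * Real.exp (-σ * Real.log (ν j))) * Real.exp (-(x - σ) * Real.log 2) := by
    intro x hx
    have h1 : Summable fun j => ‖d j * Complex.exp (-(x : ℂ) * (Real.log (ν j) : ℝ))‖ :=
      (summable_term d ν σ hd (x : ℂ) (by simpa using hx)).norm
    refine (norm_tsum_le_tsum_norm h1).trans ?_
    rw [← tsum_mul_right]
    refine h1.tsum_le_tsum (fun j => ?_) (hd.mul_right _)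
    rw [norm_term, mul_assoc, ← Real.exp_add]
    apply mul_le_mul_of_nonneg_left _ (norm_nonneg _)
    apply Real.exp_le_exp.2
    have h3 : Real.log 2 ≤ Real.log (ν j) := by
      apply Real.log_le_log (by norm_num)
      exact_mod_cast hν j
    rw [Complex.ofReal_re]
    nlinarith
  have h3 : Tendsto (fun x : ℝ => (∑' j, ‖d j‖ * Real.exp (-σ * Real.log (ν j))) *
      Real.exp (-(x - σ) * Real.log 2)) atTop (𝓝 0) := by
    have h4 : Tendsto (fun x : ℝ => -(x - σ) * Real.log 2) atTop atBot := by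
      have hl : 0 < Real.log 2 := Real.log_pos (by norm_num)
      have : Tendsto (fun x : ℝ => (x - σ) * Real.log 2) atTop atTop :=
        Tendsto.atTop_mul_const hl (tendsto_atTop_add_const_right _ (-σ) tendsto_id)
      have := tendsto_neg_atTop_atBot.comp this
      refine this.congr (fun x => ?_)
      simp only [Function.comp]
      ring
    have := (Real.tendsto_exp_atBot.comp h4).const_mul
      (∑' j, ‖d j‖ * Real.exp (-σ * Real.log (ν j)))
    simpa using this
  rw [tendsto_zero_iff_norm_tendsto_zero]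
  refine tendsto_of_tendsto_of_tendsto_of_le_of_le' tendsto_const_nhds h3 ?_ ?_
  · exact Eventually.of_forall fun x => norm_nonneg _
  · filter_upwards [eventually_ge_atTop σ] with x hx using h2 x hx

/-- The functional equation of degree zero forces `Θ = 0` -/
theorem th_zero {J : Type} (d : J → ℂ) (ν : J → ℕ) (hν : ∀ j, 2 ≤ ν j) (σ₁ : ℝ)
    (h1 : σ₁ < 1 / 2)
    (hd : ∀ σ, σ₁ < σ → Summable fun j => ‖d j‖ * Real.exp (-σ * Real.log (ν j)))
    (κ : ℂ) (Q : ℝ) (hQ : 0 < Q)
    (hfe : ∀ s : ℂ, σ₁ < s.re → s.re < 1 - σ₁ →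
      Complex.exp (Th d ν s) = κ * (Q : ℂ) ^ (-s) * Complex.exp (Th d ν (1 - s))) :
    ∀ᶠ x : ℝ in atTop, Th d ν (x : ℂ) = 0 := by
  set U : Set ℂ := {s | σ₁ < s.re} with hU
  have hUo : IsOpen U := isOpen_lt continuous_const Complex.continuous_re
  set W : Set ℂ := {s | s.re < 1 - σ₁} with hW
  have hWo : IsOpen W := isOpen_lt Complex.continuous_re continuous_const
  have hdf := th_diff d ν σ₁ hd
  have hda : ∀ s ∈ U, DifferentiableAt ℂ (Th d ν) s := fun s hs =>
    hdf.differentiableAt (hUo.mem_nhds hs)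
  have hdd : DifferentiableOn ℂ (deriv (Th d ν)) U := hdf.deriv hUo
  have hWU : ∀ s ∈ W, 1 - s ∈ U := by
    intro s hs
    show σ₁ < (1 - s).re
    simp only [Complex.sub_re, Complex.one_re]
    have : s.re < 1 - σ₁ := hs
    linarith
  -- the equation for the derivative
  have hD : ∀ s ∈ U, s ∈ W → deriv (Th d ν) s = -(Real.log Q : ℂ) - deriv (Th d ν) (1 - s) := by
    intro s hs hs2
    have e1 : HasDerivAt (fun z => Complex.exp (Th d ν z))
        (Complex.exp (Th d ν s) * deriv (Th d ν) s) s := (hda s hs).hasDerivAt.cexp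
    have e2 : HasDerivAt (fun z => Th d ν (1 - z)) (-(deriv (Th d ν) (1 - s))) s := by
      have a1 := (hda (1 - s) (hWU s hs2)).hasDerivAt
      have a2 : HasDerivAt (fun z : ℂ => 1 - z) (-1) s := by
        simpa using (hasDerivAt_id s).const_sub 1
      have := a1.comp s a2
      simpa [Function.comp_def] using this
    have e3 : HasDerivAt (fun z : ℂ => (Q : ℂ) ^ (-z))
        ((Q : ℂ) ^ (-s) * (Real.log Q : ℂ) * (-1)) s := by
      have a2 : HasDerivAt (fun z : ℂ => -z) (-1) s := (hasDerivAt_id s).neg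
      have := a2.const_cpow (c := (Q : ℂ)) (Or.inl (by exact_mod_cast hQ.ne'))
      rw [← Complex.ofReal_log hQ.le] at this
      exact this
    have e4 := (e3.const_mul κ).mul e2.cexp
    have e5 : (fun z => Complex.exp (Th d ν z)) =ᶠ[𝓝 s]
        (fun z => κ * (Q : ℂ) ^ (-z) * Complex.exp (Th d ν (1 - z))) := by
      filter_upwards [hUo.mem_nhds hs, hWo.mem_nhds hs2] with z hz hz2 using hfe z hz hz2
    have e6 := (e1.congr_of_eventuallyEq e5.symm).unique e4
    rw [hfe s hs hs2] at e6
    have hne : κ * (Q : ℂ) ^ (-s) * Complex.exp (Th d ν (1 - s)) ≠ 0 := by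
      rw [← hfe s hs hs2]
      exact Complex.exp_ne_zero _
    have e7 : κ * (Q : ℂ) ^ (-s) * Complex.exp (Th d ν (1 - s)) * deriv (Th d ν) s =
        κ * (Q : ℂ) ^ (-s) * Complex.exp (Th d ν (1 - s)) *
          (-(Real.log Q : ℂ) - deriv (Th d ν) (1 - s)) := by
      rw [e6]
      ring
    exact mul_left_cancel₀ hne e7
  -- the entire function
  set H : ℂ → ℂ := fun s => if 1 / 2 ≤ s.re then deriv (Th d ν) s
    else -(Real.log Q : ℂ) - deriv (Th d ν) (1 - s) with hH
  have HU : ∀ s ∈ U, H s = deriv (Th d ν) s := by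
    intro s hs
    simp only [hH]
    split_ifs with h
    · rfl
    · rw [hD s hs]
      show s.re < 1 - σ₁
      push Not at h
      linarith
  have HW : ∀ s ∈ W, H s = -(Real.log Q : ℂ) - deriv (Th d ν) (1 - s) := by
    intro s hs
    simp only [hH]
    split_ifs with h
    · rw [hD s _ hs]
      show σ₁ < s.re
      linarith
    · rfl
  have Hd : Differentiable ℂ H := by
    intro s
    by_cases hs : s ∈ U
    · have : DifferentiableAt ℂ (deriv (Th d ν)) s := hdd.differentiableAt (hUo.mem_nhds hs)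
      refine this.congr_of_eventuallyEq ?_
      filter_upwards [hUo.mem_nhds hs] with z hz using HU z hz
    · have hsW : s ∈ W := by
        show s.re < 1 - σ₁
        have : ¬ σ₁ < s.re := hs
        push Not at this
        linarith
      have a1 : DifferentiableAt ℂ (deriv (Th d ν)) (1 - s) :=
        hdd.differentiableAt (hUo.mem_nhds (hWU s hsW))
      have a2 : DifferentiableAt ℂ (fun z => -(Real.log Q : ℂ) - deriv (Th d ν) (1 - z)) s := by
        have a3 : DifferentiableAt ℂ (fun z : ℂ => 1 - z) s := by fun_prop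
        have a4 : DifferentiableAt ℂ (fun z => deriv (Th d ν) (1 - z)) s :=
          DifferentiableAt.comp s a1 a3
        exact a4.const_sub _
      refine a2.congr_of_eventuallyEq ?_
      filter_upwards [hWo.mem_nhds hsW] with z hz using HW z hz
  -- boundedness
  set r : ℝ := (1 / 2 - σ₁) / 2 with hr
  have hr0 : 0 < r := by rw [hr]; linarith
  set C : ℝ := ∑' j, ‖d j‖ * Real.exp (-(σ₁ + r) * Real.log (ν j)) with hC
  have Hb1 : ∀ s : ℂ, 1 / 2 ≤ s.re → ‖deriv (Th d ν) s‖ ≤ C / r := by
    intro s hs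
    have hball : ∀ z ∈ Metric.closedBall s r, σ₁ + r ≤ z.re := by
      intro z hz
      have a1 : |(z - s).re| ≤ ‖z - s‖ := Complex.abs_re_le_norm _
      have a2 : ‖z - s‖ ≤ r := by simpa [dist_eq_norm] using hz
      have a3 := (abs_le.1 (a1.trans a2)).1
      rw [Complex.sub_re] at a3
      have : σ₁ + r = 1 / 2 - r := by rw [hr]; ring
      linarith
    apply Complex.norm_deriv_le_of_forall_mem_sphere_norm_le hr0
    · apply DifferentiableOn.diffContOnCl
      refine hdf.mono ?_
      rw [closure_ball s hr0.ne']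
      intro z hz
      have := hball z hz
      show σ₁ < z.re
      linarith
    · intro z hz
      exact th_bound d ν (σ₁ + r) (hd _ (by linarith)) z (hball z (Metric.sphere_subset_closedBall hz))
  have Hb : Bornology.IsBounded (Set.range H) := by
    rw [isBounded_iff_forall_norm_le]
    refine ⟨|Real.log Q| + C / r, ?_⟩
    rintro _ ⟨s, rfl⟩
    simp only [hH]
    split_ifs with h
    · have := Hb1 s h
      have := abs_nonneg (Real.log Q)
      linarith
    · push Not at h
      have h3 := Hb1 (1 - s) (by simp only [Complex.sub_re, Complex.one_re]; linarith)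
      refine (norm_sub_le _ _).trans ?_
      rw [norm_neg, Complex.norm_real, Real.norm_eq_abs]
      linarith
  obtain ⟨A, hA⟩ := Hd.exists_const_forall_eq_of_bounded Hb
  have hA' : ∀ s ∈ U, deriv (Th d ν) s = A := fun s hs => by rw [← HU s hs, hA s]
  -- `Θ` is affine on `U`
  have haff : ∀ s ∈ U, ∀ t ∈ U, Th d ν s - A * s = Th d ν t - A * t := by
    intro s hs t ht
    have hpre : IsPreconnected U := (convex_halfSpace_re_gt σ₁).isPreconnected
    refine hUo.is_const_of_deriv_eq_zero (f := fun z => Th d ν z - A * z) hpre ?_ ?_ hs ht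
    · exact hdf.sub (by fun_prop)
    · intro z hz
      have a1 : HasDerivAt (fun z => Th d ν z - A * z) (deriv (Th d ν) z - A * 1) z :=
        (hda z hz).hasDerivAt.sub ((hasDerivAt_id z).const_mul A)
      show deriv (fun z => Th d ν z - A * z) z = 0
      rw [a1.deriv, hA' z hz]
      ring
  have htend := th_tendsto d ν hν (σ₁ + 1) (hd _ (by linarith))
  -- A = 0
  have hA0 : A = 0 := by
    have t2 : Tendsto (fun x : ℝ => Th d ν ((x + 1 : ℝ) : ℂ)) atTop (𝓝 0) :=
      htend.comp (tendsto_atTop_add_const_right _ 1 tendsto_id)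
    have t3 := t2.sub htend
    have t4 : Tendsto (fun x : ℝ => A) atTop (𝓝 (0 - 0)) := by
      refine t3.congr' ?_
      filter_upwards [eventually_gt_atTop σ₁] with x hx
      have := haff ((x + 1 : ℝ) : ℂ) (by show σ₁ < _; simp; linarith) (x : ℂ)
        (by show σ₁ < _; simpa using hx)
      push_cast at this ⊢
      linear_combination this
    have := tendsto_nhds_unique t4 tendsto_const_nhds
    simpa using this.symm
  filter_upwards [eventually_gt_atTop σ₁] with x hx
  have t5 : Tendsto (fun y : ℝ => Th d ν (x : ℂ)) atTop (𝓝 0) := by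
    refine htend.congr' ?_
    filter_upwards [eventually_gt_atTop σ₁] with y hy
    have := haff (y : ℂ) (by show σ₁ < _; simpa using hy) (x : ℂ)
        (by show σ₁ < _; simpa using hx)
    rw [hA0] at this
    simpa using this
  exact tendsto_nhds_unique tendsto_const_nhds t5

/-- Core statement -/
theorem core {J : Type} (d : J → ℂ) (ν : J → ℕ) (hν : ∀ j, 2 ≤ ν j) (σ₁ : ℝ)
    (h1 : σ₁ < 1 / 2)
    (hd : ∀ σ, σ₁ < σ → Summable fun j => ‖d j‖ * Real.exp (-σ * Real.log (ν j)))
    (κ : ℂ) (Q : ℝ) (hQ : 0 < Q)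
    (hfe : ∀ s : ℂ, σ₁ < s.re → s.re < 1 - σ₁ →
      Complex.exp (Th d ν s) = κ * (Q : ℂ) ^ (-s) * Complex.exp (Th d ν (1 - s)))
    (n : ℕ) (hn : n ≠ 0) : ∑' j : {j // ν j = n}, d j = 0 :=
  uniq d ν (fun j => by have := hν j; omega) (σ₁ + 1) (hd _ (by linarith))
    (th_zero d ν hν σ₁ h1 hd κ Q hQ hfe) n hn

end Pool.Agent.H13.SR.F
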