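import Pool.Agent.H13.SR.Defs
import Pool.Agent.H74.SR.F1

/-!
# SR, module F
-/

set_option autoImplicit false

namespace Pool.Agent.H13.SR

open scoped ComplexConjugate
open Filter Topology

namespace F

/-- norm of `α q^{-s}` -/
theorem bad_norm {q : ℕ} {α : ℂ} (hq : 2 ≤ q) (hα : ‖α‖ ≤ 1) {s : ℂ} (hs : 0 < s.re) :
    ‖α * (q : ℂ) ^ (-s)‖ < 1 := by
  rw [norm_mul, Complex.norm_natCast_cpow_of_pos (by omega)]
  have h1 : (q : ℝ) ^ (-s).re < 1 := by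
    apply Real.rpow_lt_one_of_one_lt_of_neg
    · exact_mod_cast (by omega : 1 < q)
    · simpa using hs
  have h2 : 0 ≤ (q : ℝ) ^ (-s).re := by positivity
  calc ‖α‖ * (q : ℝ) ^ (-s).re ≤ 1 * (q : ℝ) ^ (-s).re := by
        apply mul_le_mul_of_nonneg_right hα h2
    _ < 1 := by simpa using h1

theorem pow_exp {q : ℕ} (hq : 2 ≤ q) (s : ℂ) (k : ℕ) :
    ((q : ℂ) ^ (-s)) ^ k = Complex.exp (-s * (Real.log ((q ^ k : ℕ) : ℝ) : ℝ)) := by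
  rw [Complex.cpow_def_of_ne_zero (by exact_mod_cast (by omega : q ≠ 0)), ← Complex.exp_nat_mul]
  congr 1
  push_cast
  rw [Real.log_pow, ← Complex.natCast_log]
  push_cast
  ring

/-- The coefficients of `- log (1 - α q^{-s})` -/
theorem bad_hasSum {q : ℕ} {α : ℂ} (hq : 2 ≤ q) (hα : ‖α‖ ≤ 1) {s : ℂ} (hs : 0 < s.re) :
    HasSum (fun k : ℕ => α ^ (k + 1) / (k + 1) *
      Complex.exp (-s * (Real.log ((q ^ (k + 1) : ℕ) : ℝ) : ℝ)))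
      (-Complex.log (1 - α * (q : ℂ) ^ (-s))) := by
  have := Complex.hasSum_taylorSeries_neg_log' (bad_norm hq hα hs)
  refine this.congr_fun (fun k => ?_)
  rw [mul_pow, pow_exp hq]
  ring

theorem bad_exp {q : ℕ} {α : ℂ} (hq : 2 ≤ q) (hα : ‖α‖ ≤ 1) {s : ℂ} (hs : 0 < s.re) :
    Complex.exp (∑' k : ℕ, α ^ (k + 1) / (k + 1) *
      Complex.exp (-s * (Real.log ((q ^ (k + 1) : ℕ) : ℝ) : ℝ))) =
      (1 - α * (q : ℂ) ^ (-s))⁻¹ := by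
  rw [(bad_hasSum hq hα hs).tsum_eq, Complex.exp_neg, Complex.exp_log]
  intro h0
  have h1 := bad_norm hq hα hs
  have h2 : α * (q : ℂ) ^ (-s) = 1 := by linear_combination -h0
  rw [h2] at h1
  simp at h1

/-- summability of the coefficients for one bad factor -/
theorem bad_summable {q : ℕ} {α : ℂ} (hq : 2 ≤ q) (hα : ‖α‖ ≤ 1) {σ : ℝ} (hσ : 0 < σ) :
    Summable (fun k : ℕ => ‖α ^ (k + 1) / (k + 1)‖ *
      Real.exp (-σ * Real.log ((q ^ (k + 1) : ℕ) : ℝ))) := by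
  have h1 : Real.exp (-σ * Real.log q) < 1 := by
    rw [Real.exp_lt_one_iff]
    have : 0 < Real.log q := Real.log_pos (by exact_mod_cast (by omega : 1 < q))
    nlinarith
  have h2 := (summable_geometric_of_lt_one (Real.exp_pos _).le h1)
  have h3 := (summable_nat_add_iff 1).2 h2
  refine Summable.of_nonneg_of_le (fun k => by positivity) (fun k => ?_) h3
  have e1 : Real.exp (-σ * Real.log ((q ^ (k + 1) : ℕ) : ℝ)) =
      Real.exp (-σ * Real.log q) ^ (k + 1) := by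
    rw [← Real.exp_nat_mul]
    push_cast
    rw [Real.log_pow]
    congr 1
    push_cast
    ring
  rw [e1]
  have e2 : ‖α ^ (k + 1) / ((k : ℂ) + 1)‖ ≤ 1 := by
    rw [norm_div, norm_pow]
    have e3 : ‖((k : ℂ) + 1)‖ = (k : ℝ) + 1 := by
      have := Complex.norm_natCast (k + 1)
      push_cast at this
      exact this
    rw [e3, div_le_one (by positivity)]
    have := pow_le_one₀ (n := k + 1) (norm_nonneg α) hα
    have : (0 : ℝ) ≤ k := Nat.cast_nonneg k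
    linarith
  calc ‖α ^ (k + 1) / ((k : ℂ) + 1)‖ * Real.exp (-σ * Real.log q) ^ (k + 1)
      ≤ 1 * Real.exp (-σ * Real.log q) ^ (k + 1) :=
        mul_le_mul_of_nonneg_right e2 (by positivity)
    _ = Real.exp (-σ * Real.log q) ^ (k + 1) := one_mul _

/-- index type for the coefficients -/
abbrev JJ (V : Type) (b₁ b₂ : List (ℕ × ℂ)) : Type :=
  (V × ℕ) ⊕ ((Fin b₁.length × ℕ) ⊕ (Fin b₂.length × ℕ))

/-- the frequencies -/
def nu {V : Type} (N : V → ℕ) (b₁ b₂ : List (ℕ × ℂ)) : JJ V b₁ b₂ → ℕ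
  | .inl x => N x.1 ^ (x.2 + 1)
  | .inr (.inl x) => b₁[x.1.1].1 ^ (x.2 + 1)
  | .inr (.inr x) => b₂[x.1.1].1 ^ (x.2 + 1)

/-- the coefficients -/
noncomputable def dd {V : Type} (c : V × ℕ → ℝ) (b₁ b₂ : List (ℕ × ℂ)) : JJ V b₁ b₂ → ℂ
  | .inl x => (c x : ℂ)
  | .inr (.inl x) => b₁[x.1.1].2 ^ (x.2 + 1) / (x.2 + 1)
  | .inr (.inr x) => -(b₂[x.1.1].2 ^ (x.2 + 1) / (x.2 + 1))

theorem nu_ge {V : Type} {N : V → ℕ} (hN : ∀ v, 2 ≤ N v) {b₁ b₂ : List (ℕ × ℂ)}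
    (hb₁ : ∀ x ∈ b₁, 2 ≤ x.1 ∧ ‖x.2‖ ≤ 1) (hb₂ : ∀ x ∈ b₂, 2 ≤ x.1 ∧ ‖x.2‖ ≤ 1) (j : JJ V b₁ b₂) :
    2 ≤ nu N b₁ b₂ j := by
  have h : ∀ q k : ℕ, 2 ≤ q → 2 ≤ q ^ (k + 1) := by
    intro q k hq
    calc 2 ≤ q := hq
      _ = q ^ 1 := (pow_one q).symm
      _ ≤ q ^ (k + 1) := Nat.pow_le_pow_right (by omega) (by omega)
  rcases j with x | x | x
  · exact h _ _ (hN _)
  · exact h _ _ (hb₁ _ (List.getElem_mem _)).1
  · exact h _ _ (hb₂ _ (List.getElem_mem _)).1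

theorem log_freq {V : Type} (N : V → ℕ) (x : V × ℕ) :
    Real.log ((N x.1 ^ (x.2 + 1) : ℕ) : ℝ) = (x.2 + 1) * Real.log (N x.1) := by
  push_cast
  rw [Real.log_pow]
  push_cast
  ring

theorem bad_sum_list (b : List (ℕ × ℂ)) (hb : ∀ x ∈ b, 2 ≤ x.1 ∧ ‖x.2‖ ≤ 1) {σ : ℝ} (hσ : 0 < σ) :
    Summable (fun x : Fin b.length × ℕ => ‖b[x.1.1].2 ^ (x.2 + 1) / ((x.2 : ℂ) + 1)‖ *
      Real.exp (-σ * Real.log ((b[x.1.1].1 ^ (x.2 + 1) : ℕ) : ℝ))) := by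
  rw [summable_prod_of_nonneg (fun x => by positivity)]
  refine ⟨fun i => ?_, Summable.of_finite⟩
  have hm := hb _ (List.getElem_mem i.2)
  exact bad_summable hm.1 hm.2 hσ

theorem dd_summable {V : Type} {N : V → ℕ} {c : V × ℕ → ℝ}
    (hc : ∀ x, 0 ≤ c x) {σ₁ : ℝ} (h0 : 0 ≤ σ₁)
    (hs : ∀ σ, σ₁ < σ → Summable fun x : V × ℕ =>
      c x * Real.exp (-σ * ((x.2 + 1) * Real.log (N x.1))))
    {b₁ b₂ : List (ℕ × ℂ)} (hb₁ : ∀ x ∈ b₁, 2 ≤ x.1 ∧ ‖x.2‖ ≤ 1)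
    (hb₂ : ∀ x ∈ b₂, 2 ≤ x.1 ∧ ‖x.2‖ ≤ 1) (σ : ℝ) (hσ : σ₁ < σ) :
    Summable fun j => ‖dd c b₁ b₂ j‖ * Real.exp (-σ * Real.log (nu N b₁ b₂ j)) := by
  apply Summable.sum
  · refine (hs σ hσ).congr (fun x => ?_)
    show _ = ‖(c x : ℂ)‖ * Real.exp (-σ * Real.log ((N x.1 ^ (x.2 + 1) : ℕ) : ℝ))
    rw [log_freq, Complex.norm_real, Real.norm_of_nonneg (hc x)]
  · apply Summable.sum
    · exact bad_sum_list b₁ hb₁ (by linarith)
    · refine (bad_sum_list b₂ hb₂ (σ := σ) (by linarith)).congr (fun x => ?_)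
      show _ = ‖-(b₂[x.1.1].2 ^ (x.2 + 1) / ((x.2 : ℂ) + 1))‖ * _
      rw [norm_neg]
      rfl

/-- exponential of the sum over one list -/
theorem list_exp (b : List (ℕ × ℂ)) (hb : ∀ x ∈ b, 2 ≤ x.1 ∧ ‖x.2‖ ≤ 1) {s : ℂ} (hs : 0 < s.re) :
    Complex.exp (∑' x : Fin b.length × ℕ, b[x.1.1].2 ^ (x.2 + 1) / ((x.2 : ℂ) + 1) *
      Complex.exp (-s * (Real.log ((b[x.1.1].1 ^ (x.2 + 1) : ℕ) : ℝ) : ℝ))) =
      (b.map fun x => (1 - x.2 * (x.1 : ℂ) ^ (-s))⁻¹).prod := by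
  have hsum : Summable (fun x : Fin b.length × ℕ => b[x.1.1].2 ^ (x.2 + 1) / ((x.2 : ℂ) + 1) *
      Complex.exp (-s * (Real.log ((b[x.1.1].1 ^ (x.2 + 1) : ℕ) : ℝ) : ℝ))) := by
    apply Summable.of_norm
    refine (bad_sum_list b hb hs).congr (fun x => ?_)
    rw [norm_mul, Complex.norm_exp]
    congr 2
    rw [Complex.mul_re, Complex.ofReal_re, Complex.ofReal_im, Complex.neg_re]
    ring
  rw [hsum.tsum_prod, tsum_fintype, Complex.exp_sum, ← Fin.prod_univ_fun_getElem]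
  apply Finset.prod_congr rfl
  intro i _
  have hm := hb _ (List.getElem_mem i.2)
  exact bad_exp hm.1 hm.2 hs

theorem list_exp_neg (b : List (ℕ × ℂ)) (hb : ∀ x ∈ b, 2 ≤ x.1 ∧ ‖x.2‖ ≤ 1) {s : ℂ}
    (hs : 0 < s.re) :
    Complex.exp (∑' x : Fin b.length × ℕ, -(b[x.1.1].2 ^ (x.2 + 1) / ((x.2 : ℂ) + 1)) *
      Complex.exp (-s * (Real.log ((b[x.1.1].1 ^ (x.2 + 1) : ℕ) : ℝ) : ℝ))) =
      (b.map fun x => 1 - x.2 * (x.1 : ℂ) ^ (-s)).prod := by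
  have h1 : (∑' x : Fin b.length × ℕ, -(b[x.1.1].2 ^ (x.2 + 1) / ((x.2 : ℂ) + 1)) *
      Complex.exp (-s * (Real.log ((b[x.1.1].1 ^ (x.2 + 1) : ℕ) : ℝ) : ℝ))) =
      -(∑' x : Fin b.length × ℕ, b[x.1.1].2 ^ (x.2 + 1) / ((x.2 : ℂ) + 1) *
      Complex.exp (-s * (Real.log ((b[x.1.1].1 ^ (x.2 + 1) : ℕ) : ℝ) : ℝ))) := by
    rw [← tsum_neg]
    apply tsum_congr
    intro x
    ring
  rw [h1, Complex.exp_neg, list_exp b hb hs, List.prod_inv]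
  congr 1
  rw [List.map_map]
  apply List.map_congr_left
  intro x _
  simp

theorem th_eq {V : Type} {N : V → ℕ} {c : V × ℕ → ℝ}
    (hc : ∀ x, 0 ≤ c x) {σ₁ : ℝ} (h0 : 0 ≤ σ₁)
    (hs : ∀ σ, σ₁ < σ → Summable fun x : V × ℕ =>
      c x * Real.exp (-σ * ((x.2 + 1) * Real.log (N x.1))))
    {b₁ b₂ : List (ℕ × ℂ)} (hb₁ : ∀ x ∈ b₁, 2 ≤ x.1 ∧ ‖x.2‖ ≤ 1)
    (hb₂ : ∀ x ∈ b₂, 2 ≤ x.1 ∧ ‖x.2‖ ≤ 1) (s : ℂ) (hσ : σ₁ < s.re) :
    Complex.exp (Th (dd c b₁ b₂) (nu N b₁ b₂) s) =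
      Complex.exp (∑' x : V × ℕ, (c x : ℂ) *
        Complex.exp (-s * ((x.2 + 1) * Real.log (N x.1) : ℝ))) * badE b₁ b₂ s := by
  have hsum := summable_term _ _ _ (dd_summable hc h0 hs hb₁ hb₂ s.re hσ) s le_rfl
  have hs0 : 0 < s.re := by linarith
  have i1 : Function.Injective (Sum.inl : V × ℕ → JJ V b₁ b₂) := Sum.inl_injective
  have i2 : Function.Injective (Sum.inr : _ → JJ V b₁ b₂) := Sum.inr_injective
  have s1 := hsum.comp_injective i1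
  have s2 := hsum.comp_injective i2
  have s3 := s2.comp_injective (Sum.inl_injective (α := Fin b₁.length × ℕ) (β := Fin b₂.length × ℕ))
  have s4 := s2.comp_injective (Sum.inr_injective (α := Fin b₁.length × ℕ) (β := Fin b₂.length × ℕ))
  have e1 : Th (dd c b₁ b₂) (nu N b₁ b₂) s = _ := Summable.tsum_sum s1 s2
  have e2 := Summable.tsum_sum s3 s4
  rw [e1, Complex.exp_add, badE]
  congr 1
  · congr 1
    apply tsum_congr
    intro x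
    show (c x : ℂ) * Complex.exp (-s * (Real.log ((N x.1 ^ (x.2 + 1) : ℕ) : ℝ) : ℝ)) = _
    rw [log_freq]
  · rw [← list_exp b₁ hb₁ hs0, ← list_exp_neg b₂ hb₂ hs0, ← Complex.exp_add]
    exact congrArg Complex.exp e2

end F

/-- F: `Φ` is a Dirichlet series with nonnegative coefficients `c (v,k) ` at the frequencies
`(k+1) log (N v)`, convergent for `σ > σ₁`, `σ₁ < 1/2`; if `exp Φ` has a functional equation of
degree zero, then `c` is supported at powers of the bad norms. -/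
theorem fe_support {V : Type} (N : V → ℕ) (hN : ∀ v, 2 ≤ N v) (c : V × ℕ → ℝ)
    (hc : ∀ x, 0 ≤ c x) (σ₁ : ℝ) (h0 : 0 ≤ σ₁) (h1 : σ₁ < 1 / 2)
    (hs : ∀ σ, σ₁ < σ → Summable fun x : V × ℕ =>
      c x * Real.exp (-σ * ((x.2 + 1) * Real.log (N x.1))))
    (b₁ b₂ : List (ℕ × ℂ)) (hb₁ : ∀ x ∈ b₁, 2 ≤ x.1 ∧ ‖x.2‖ ≤ 1)
    (hb₂ : ∀ x ∈ b₂, 2 ≤ x.1 ∧ ‖x.2‖ ≤ 1) (κ : ℂ) (hκ : κ ≠ 0) (Q : ℝ) (hQ : 0 < Q)
    (hfe : ∀ s : ℂ, σ₁ < s.re → s.re < 1 - σ₁ →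
      Complex.exp (∑' x : V × ℕ, (c x : ℂ) *
        Complex.exp (-s * ((x.2 + 1) * Real.log (N x.1) : ℝ))) * badE b₁ b₂ s =
      κ * (Q : ℂ) ^ (-s) * Complex.exp (∑' x : V × ℕ, (c x : ℂ) *
        Complex.exp (-(1 - s) * ((x.2 + 1) * Real.log (N x.1) : ℝ))) * badE b₁ b₂ (1 - s))
    (x : V × ℕ) (hx : 0 < c x) :
    ∃ a : ℕ, 1 ≤ a ∧ ∃ y ∈ b₁ ++ b₂, N x.1 ^ (x.2 + 1) = y.1 ^ a := by
  by_contra hcon
  push Not at hcon
  set n : ℕ := N x.1 ^ (x.2 + 1) with hn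
  have hdS := F.dd_summable hc h0 hs hb₁ hb₂
  have key := F.core (F.dd c b₁ b₂) (F.nu N b₁ b₂) (F.nu_ge hN hb₁ hb₂) σ₁ h1 hdS κ Q hQ (by
      intro s hs1 hs2
      rw [F.th_eq hc h0 hs hb₁ hb₂ s hs1, F.th_eq hc h0 hs hb₁ hb₂ (1 - s)
        (by rw [Complex.sub_re, Complex.one_re]; linarith), hfe s hs1 hs2]
      ring) n (by
        have : 2 ≤ F.nu N b₁ b₂ (Sum.inl x) := F.nu_ge hN hb₁ hb₂ _
        have h2 : F.nu N b₁ b₂ (Sum.inl x) = n := rfl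
        omega)
  -- on the fibre all coefficients are real and nonnegative
  have hreal : ∀ j : {j // F.nu N b₁ b₂ j = n}, ∃ r : ℝ, 0 ≤ r ∧ F.dd c b₁ b₂ j = (r : ℂ) := by
    rintro ⟨j, hj⟩
    rcases j with z | z | z
    · exact ⟨c z, hc z, rfl⟩
    · exfalso
      refine hcon (z.2 + 1) (by omega) b₁[z.1.1] ?_ hj.symm
      exact List.mem_append_left _ (List.getElem_mem _)
    · exfalso
      refine hcon (z.2 + 1) (by omega) b₂[z.1.1] ?_ hj.symm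
      exact List.mem_append_right _ (List.getElem_mem _)
  choose r hr0 hr using hreal
  have hsumr : Summable r := by
    have h2 := (hdS (σ₁ + 1) (by linarith)).comp_injective
      (Subtype.val_injective (p := fun j => F.nu N b₁ b₂ j = n))
    have h3 := h2.mul_right (Real.exp (-(σ₁ + 1) * Real.log n))⁻¹
    refine h3.congr (fun j => ?_)
    simp only [Function.comp_apply]
    rw [j.2, hr j, Complex.norm_real, Real.norm_of_nonneg (hr0 j), mul_assoc,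
      mul_inv_cancel₀ (Real.exp_pos _).ne', mul_one]
  have hsum0 : ∑' j, r j = 0 := by
    have h2 : ((∑' j, r j : ℝ) : ℂ) = 0 := by
      rw [Complex.ofReal_tsum, ← key]
      exact tsum_congr fun j => (hr j).symm
    exact_mod_cast h2
  have h3 := (hsumr.hasSum_iff.2 hsum0)
  have h4 := (hasSum_zero_iff_of_nonneg hr0).1 h3
  have h5 := congrFun h4 ⟨Sum.inl x, rfl⟩
  have h6 := hr ⟨Sum.inl x, rfl⟩
  have h7 : (c x : ℂ) = (r ⟨Sum.inl x, rfl⟩ : ℂ) := h6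
  rw [h5] at h7
  have : c x = 0 := by exact_mod_cast h7
  linarith

end Pool.Agent.H13.SR
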